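import Mathlib
import Pool.Agent.TH669.TF.Final

/-!
# Exceptional sets of integers
-/

set_option autoImplicit false

namespace Pool.Agent.Q330.LRM

open Finset Real

/-- all integers outside `E` whose prime divisors are at most `r + 1` are at most `exp (b r)` -/
def NumBound (E : Set ℕ) (b : ℝ → ℝ) : Prop :=
  ∀ r : ℕ, 1 < r → ∀ n : ℕ, (∀ p : ℕ, p.Prime → p ∣ n → p ≤ r + 1) → n ∉ E → log n ≤ b r

open Classical in
theorem poly (η : ℝ) (hη : 0 < η) : ∃ (C : ℝ) (E : Set ℕ),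
    (∀ x : ℕ, (((Ioc 0 x).filter (fun n => n ∈ E)).card : ℝ) ≤ η * x) ∧
    NumBound E (fun r => C * log r) := by
  obtain ⟨C, N0, hC, hcount⟩ := Pool.Agent.TH669.TF.few_poly η hη
  obtain ⟨E, hEm⟩ : ∃ E : Set ℕ, ∀ n, n ∈ E ↔
      (N0 < n ∧ ∀ p : ℕ, p.Prime → p ∣ n → C * log p < log n) := ⟨{n | _}, fun _ => Iff.rfl⟩
  refine ⟨max (2 * C) (log N0 / log 2), E, fun x => ?_, ?_⟩
  · refine le_trans (Nat.cast_le.2 (card_le_card fun n hn => ?_)) (hcount x)
    rw [mem_filter] at hn ⊢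
    exact ⟨hn.1, (hEm n).1 hn.2⟩
  · intro r hr n hn hnE
    have hr2 : (2 : ℝ) ≤ r := by exact_mod_cast hr
    have hlr : 0 < log (r : ℝ) := log_pos (by linarith)
    change log (n : ℝ) ≤ max (2 * C) (log N0 / log 2) * log (r : ℝ)
    by_cases hN : n ≤ N0
    · rcases Nat.eq_zero_or_pos n with h0 | h0
      · rw [h0, Nat.cast_zero, log_zero]
        have : 0 ≤ max (2 * C) (log N0 / log 2) := le_max_of_le_left (by linarith)
        positivity
      · have h1 : log (n : ℝ) ≤ log N0 := log_le_log (by exact_mod_cast h0) (by exact_mod_cast hN)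
        have h2 : log 2 ≤ log (r : ℝ) := log_le_log (by norm_num) hr2
        have hl2 : 0 < log 2 := log_pos (by norm_num)
        have hN0 : 0 ≤ log (N0 : ℝ) := log_natCast_nonneg N0
        calc log (n : ℝ) ≤ log N0 := h1
          _ = log N0 / log 2 * log 2 := by field_simp
          _ ≤ log N0 / log 2 * log (r : ℝ) := mul_le_mul_of_nonneg_left h2 (by positivity)
          _ ≤ _ := mul_le_mul_of_nonneg_right (le_max_right _ _) hlr.le
    · have h1 : ¬ ∀ p : ℕ, p.Prime → p ∣ n → C * log p < log n := fun h =>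
        hnE ((hEm n).2 ⟨not_le.1 hN, h⟩)
      push Not at h1
      obtain ⟨p, hp, hpn, hlog⟩ := h1
      have h2 := hn p hp hpn
      have h3 : (p : ℝ) ≤ r + 1 := by exact_mod_cast h2
      have h4 : log (p : ℝ) ≤ 2 * log (r : ℝ) :=
        (log_le_log (by exact_mod_cast hp.pos) h3).trans (Pool.Agent.TH669.TF.log_succ_le _ hr)
      calc log (n : ℝ) ≤ C * log p := hlog
        _ ≤ C * (2 * log (r : ℝ)) := mul_le_mul_of_nonneg_left h4 (by linarith)
        _ = 2 * C * log (r : ℝ) := by ring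
        _ ≤ _ := mul_le_mul_of_nonneg_right (le_max_left _ _) hlr.le

open Classical in
theorem quasi (c : ℝ) (hc : 2 < c) : ∃ E : Set ℕ,
    (∃ x0 : ℕ, ∀ x : ℕ, x0 ≤ x → (((Ioc 0 x).filter (fun n => n ∈ E)).card : ℝ) ≤
      x * exp (-(log x) ^ (1 - 1 / c) / 2)) ∧
    NumBound E (fun r => (2 * log r) ^ c) := by
  have hc0 : 0 < c := by linarith
  obtain ⟨E, hEm⟩ : ∃ E : Set ℕ, ∀ n, n ∈ E ↔
      (1 < n ∧ ∀ p : ℕ, p.Prime → p ∣ n → log p ≤ (log n) ^ (1 / c)) :=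
    ⟨{n | _}, fun _ => Iff.rfl⟩
  refine ⟨E, ?_, ?_⟩
  · obtain ⟨x0, h⟩ := Pool.Agent.TH669.TF.few_rankin c hc
    refine ⟨x0, fun x hx => le_trans ?_ (h x hx)⟩
    apply Nat.cast_le.2
    apply card_le_card
    intro n hn
    rw [mem_filter, mem_Ioc] at hn ⊢
    refine ⟨hn.1, fun p hp hd => (((hEm n).1 hn.2).2 p hp hd).trans ?_⟩
    have hn0 : (0 : ℝ) < n := by exact_mod_cast hn.1.1
    exact rpow_le_rpow (log_natCast_nonneg n) (log_le_log hn0 (by exact_mod_cast hn.1.2))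
      (by positivity)
  · intro r hr n hn hnE
    have hr2 : (2 : ℝ) ≤ r := by exact_mod_cast hr
    have hlr : 0 < log (r : ℝ) := log_pos (by linarith)
    change log (n : ℝ) ≤ (2 * log (r : ℝ)) ^ c
    by_cases hN : n ≤ 1
    · have : log (n : ℝ) = 0 := by
        interval_cases n <;> simp
      rw [this]
      positivity
    · have h1 : ¬ ∀ p : ℕ, p.Prime → p ∣ n → log p ≤ (log n) ^ (1 / c) := fun h =>
        hnE ((hEm n).2 ⟨not_le.1 hN, h⟩)
      push Not at h1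
      obtain ⟨p, hp, hpn, hlog⟩ := h1
      have h2 := hn p hp hpn
      have h3 : (p : ℝ) ≤ r + 1 := by exact_mod_cast h2
      have h4 : log (p : ℝ) ≤ 2 * log (r : ℝ) :=
        (log_le_log (by exact_mod_cast hp.pos) h3).trans (Pool.Agent.TH669.TF.log_succ_le _ hr)
      have hn0 : 0 ≤ log (n : ℝ) := log_natCast_nonneg n
      calc log (n : ℝ) = ((log n) ^ (1 / c)) ^ c := by
            rw [← rpow_mul hn0, one_div, inv_mul_cancel₀ hc0.ne', rpow_one]
        _ ≤ (2 * log (r : ℝ)) ^ c :=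
            rpow_le_rpow (by positivity) (hlog.le.trans h4) hc0.le

open Classical in
theorem power (A : ℝ) (hA : 2 ≤ A) : ∃ E : Set ℕ,
    (∀ ε : ℝ, 0 < ε → ∃ x0 : ℕ, ∀ x : ℕ, x0 ≤ x →
      (((Ioc 0 x).filter (fun n => n ∈ E)).card : ℝ) ≤ (x : ℝ) ^ (1 - 1 / A + ε)) ∧
    NumBound E (fun r => (r + 1) ^ (1 / A)) := by
  have hA0 : 0 < A := by linarith
  obtain ⟨E, hEm⟩ : ∃ E : Set ℕ, ∀ n, n ∈ E ↔
      (1 < n ∧ ∀ p : ℕ, p.Prime → p ∣ n → (p : ℝ) ≤ (log n) ^ A) :=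
    ⟨{n | _}, fun _ => Iff.rfl⟩
  refine ⟨E, ?_, ?_⟩
  · intro ε hε
    obtain ⟨x0, h⟩ := Pool.Agent.TH669.TF.few_power A hA ε hε
    refine ⟨x0, fun x hx => le_trans ?_ (h x hx)⟩
    apply Nat.cast_le.2
    apply card_le_card
    intro n hn
    rw [mem_filter, mem_Ioc] at hn ⊢
    refine ⟨hn.1, fun p hp hd => (((hEm n).1 hn.2).2 p hp hd).trans ?_⟩
    have hn0 : (0 : ℝ) < n := by exact_mod_cast hn.1.1
    exact rpow_le_rpow (log_natCast_nonneg n) (log_le_log hn0 (by exact_mod_cast hn.1.2))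
      (by positivity)
  · intro r hr n hn hnE
    change log (n : ℝ) ≤ ((r : ℝ) + 1) ^ (1 / A)
    by_cases hN : n ≤ 1
    · have : log (n : ℝ) = 0 := by
        interval_cases n <;> simp
      rw [this]
      positivity
    · have h1 : ¬ ∀ p : ℕ, p.Prime → p ∣ n → (p : ℝ) ≤ (log n) ^ A := fun h =>
        hnE ((hEm n).2 ⟨not_le.1 hN, h⟩)
      push Not at h1
      obtain ⟨p, hp, hpn, hlog⟩ := h1
      have h2 := hn p hp hpn
      have h3 : (p : ℝ) ≤ r + 1 := by exact_mod_cast h2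
      have hn0 : 0 ≤ log (n : ℝ) := log_natCast_nonneg n
      calc log (n : ℝ) = ((log n) ^ A) ^ (1 / A) := by
            rw [← rpow_mul hn0, one_div, mul_inv_cancel₀ hA0.ne', rpow_one]
        _ ≤ ((r : ℝ) + 1) ^ (1 / A) :=
            rpow_le_rpow (by positivity) (hlog.le.trans h3) (by positivity)

end Pool.Agent.Q330.LRM
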