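import Mathlib
import Pool.Agent.TH669.TF.Lin

/-!
# Automorphisms of prime order of Boolean matrices and the rank
-/

set_option autoImplicit false

namespace Pool.Agent.Q330.LRM

variable {X Y : Type} [Fintype X] [Fintype Y]

/-- the real matrix of `F` -/
def mat (K : Type) [Zero K] [One K] (F : X → Y → Bool) : Matrix X Y K :=
  Matrix.of fun x y => if F x y then (1 : K) else 0

omit [Fintype X] [Fintype Y] in
theorem mat_apply (K : Type) [Zero K] [One K] (F : X → Y → Bool) (x : X) (y : Y) :
    mat K F x y = if F x y then (1 : K) else 0 := rfl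

theorem rank_rat (F : X → Y → Bool) : (mat ℚ F).rank ≤ (mat ℝ F).rank := by
  have h := Pool.Agent.W824.BJ.rank_map_le (Int.castRingHom ℝ) Int.cast_injective
    (Int.castRingHom ℚ) (mat ℤ F)
  have e1 : (mat ℤ F).map (Int.castRingHom ℝ) = mat ℝ F := by
    ext i j
    simp [mat_apply]
  have e2 : (mat ℤ F).map (Int.castRingHom ℚ) = mat ℚ F := by
    ext i j
    simp [mat_apply]
  rwa [e1, e2] at h

/-- **A permutation of the rows of prime order which can be complemented by a permutation of the
columns.** -/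
theorem prime_le (F : X → Y → Bool) (hF : Function.Injective F) (p : ℕ) (hp : p.Prime)
    (σ : Equiv.Perm X) (τ : Equiv.Perm Y) (hστ : ∀ x y, F (σ x) (τ y) = F x y)
    (hσ : σ ^ p = 1) (hσ1 : σ ≠ 1) : p ≤ (mat ℝ F).rank + 1 := by
  classical
  refine le_trans ?_ (Nat.add_le_add_right (rank_rat F) 1)
  set B : Matrix X Y ℚ := mat ℚ F with hB
  have hadj : ∀ x y, B (σ x) (τ y) = B x y := by
    intro x y
    rw [hB, mat_apply, mat_apply, hστ]
  let P : (X → ℚ) →ₗ[ℚ] (X → ℚ) := LinearMap.funLeft ℚ ℚ (σ : X → X)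
  let R : (Y → ℚ) →ₗ[ℚ] (Y → ℚ) := LinearMap.funLeft ℚ ℚ (τ : Y → Y)
  have hPa : ∀ (f : X → ℚ) (x : X), P f x = f (σ x) := fun f x => rfl
  have hRa : ∀ (f : Y → ℚ) (x : Y), R f x = f (τ x) := fun f x => rfl
  have hcomm : ∀ f : Y → ℚ, P (B.mulVecLin f) = B.mulVecLin (R f) := by
    intro f
    funext x
    rw [hPa, Matrix.mulVecLin_apply, Matrix.mulVecLin_apply, Matrix.mulVec, Matrix.mulVec,
      dotProduct, dotProduct]
    refine (Fintype.sum_equiv τ _ _ fun y => ?_).symm
    rw [show B (σ x) (τ y) = B x y from hadj x y, hRa]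
  have hmap : ∀ w ∈ LinearMap.range B.mulVecLin, P w ∈ LinearMap.range B.mulVecLin := by
    rintro w ⟨f, rfl⟩
    exact ⟨R f, (hcomm f).symm⟩
  let T : Module.End ℚ (LinearMap.range B.mulVecLin) := P.restrict hmap
  have hPpow : ∀ (k : ℕ) (f : X → ℚ) (x : X), (P ^ k) f x = f ((σ ^ k) x) := by
    intro k
    induction k with
    | zero => intro f x; rfl
    | succ k ih =>
      intro f x
      rw [pow_succ, Module.End.mul_apply, ih, hPa, pow_succ']
      rfl
  have hTpow : ∀ (k : ℕ) (w : LinearMap.range B.mulVecLin),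
      (((T ^ k) w : LinearMap.range B.mulVecLin) : X → ℚ) = (P ^ k) (w : X → ℚ) := by
    intro k
    induction k with
    | zero => intro w; rfl
    | succ k ih =>
      intro w
      rw [pow_succ, Module.End.mul_apply, ih, pow_succ, Module.End.mul_apply]
      rfl
  have hTp : T ^ p = 1 := by
    apply LinearMap.ext
    intro w
    apply Subtype.ext
    rw [hTpow]
    funext x
    rw [hPpow, hσ]
    rfl
  have hT1 : T ≠ 1 := by
    intro hT
    apply hσ1
    ext u
    apply hF
    funext v
    let w : LinearMap.range B.mulVecLin := ⟨B.mulVecLin (Pi.single v 1), ⟨_, rfl⟩⟩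
    have hw : ∀ x, (w : X → ℚ) x = B x v := by
      intro x
      change B.mulVecLin (Pi.single v 1) x = B x v
      rw [Matrix.mulVecLin_apply, Matrix.mulVec_single_one]
      rfl
    have h1 : ((T w : LinearMap.range B.mulVecLin) : X → ℚ) u = (w : X → ℚ) u := by
      rw [hT]
      rfl
    have h2 : ((T w : LinearMap.range B.mulVecLin) : X → ℚ) u = (w : X → ℚ) (σ u) := rfl
    have h3 : B (σ u) v = B u v := by
      rw [← hw, ← hw, ← h2, h1]
    rw [hB, mat_apply, mat_apply] at h3
    change F (σ u) v = F u v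
    cases h4 : F (σ u) v <;> cases h5 : F u v <;> simp_all
  have hfin := Pool.Agent.TH669.TF.end_order T p hp hTp hT1
  exact hfin

end Pool.Agent.Q330.LRM
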