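import Mathlib
import Pool.Agent.Q330.LRM.Prime
import Pool.Agent.Q330.LRM.Num

/-!
# Orbits of automorphism groups of Boolean matrices
-/

set_option autoImplicit false

namespace Pool.Agent.Q330.LRM

open Real

/-- a prime dividing the size of an orbit divides the order of the group -/
theorem dvd_of_orbit {Γ Z : Type} [Group Γ] [Finite Γ] [MulAction Γ Z] (u : Z) (p : ℕ)
    (hp : p ∣ Nat.card (MulAction.orbit Γ u)) : p ∣ Nat.card Γ := by
  have h : Nat.card (MulAction.orbit Γ u) = Nat.card (Γ ⧸ MulAction.stabilizer Γ u) :=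
    Nat.card_congr (MulAction.orbitEquivQuotientStabilizer Γ u)
  rw [h] at hp
  exact hp.trans (Subgroup.card_quotient_dvd_card _)

variable {X Y : Type} [Fintype X] [Fintype Y]

/-- the orbit of a row -/
def rowOrbit (G : Subgroup (Equiv.Perm X × Equiv.Perm Y)) (u : X) : Set X :=
  {x | ∃ g ∈ G, g.1 u = x}

/-- the orbit of a cell -/
def cellOrbit (G : Subgroup (Equiv.Perm X × Equiv.Perm Y)) (u : X × Y) : Set (X × Y) :=
  {z | ∃ g ∈ G, (g.1 u.1, g.2 u.2) = z}

theorem row_prime (F : X → Y → Bool) (hF : Function.Injective F)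
    (G : Subgroup (Equiv.Perm X × Equiv.Perm Y)) (hG : ∀ g ∈ G, ∀ x y, F (g.1 x) (g.2 y) = F x y)
    (u : X) (p : ℕ) (hp : p.Prime) (hd : p ∣ (rowOrbit G u).ncard) :
    p ≤ (mat ℝ F).rank + 1 := by
  classical
  let H : Subgroup (Equiv.Perm X) := G.map (MonoidHom.fst _ _)
  have horb : rowOrbit G u = MulAction.orbit H u := by
    ext x
    constructor
    · rintro ⟨g, hg, rfl⟩
      exact ⟨⟨g.1, ⟨g, hg, rfl⟩⟩, rfl⟩
    · rintro ⟨⟨σ, ⟨g, hg, hgσ⟩⟩, rfl⟩
      refine ⟨g, hg, ?_⟩
      change g.1 u = σ u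
      rw [← hgσ]
      rfl
  rw [horb, Set.ncard_eq_toFinset_card', ← Nat.card_eq_card_toFinset] at hd
  have h1 := dvd_of_orbit (Γ := H) u p hd
  haveI := Fact.mk hp
  obtain ⟨⟨σ, ⟨g, hg, hgσ⟩⟩, hord⟩ := exists_prime_orderOf_dvd_card' (G := H) p h1
  have hσg : g.1 = σ := hgσ
  have hord' : orderOf σ = p := by
    rw [← hord, ← Subgroup.orderOf_coe]
  refine prime_le F hF p hp σ g.2 (fun x y => ?_) ?_ ?_
  · rw [← hσg]
    exact hG g hg x y
  · rw [← hord']
    exact pow_orderOf_eq_one σ
  · intro h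
    rw [h, orderOf_one] at hord'
    exact hp.one_lt.ne hord'

theorem rank_transpose (F : X → Y → Bool) :
    (mat ℝ (fun y x => F x y)).rank = (mat ℝ F).rank := by
  have : mat ℝ (fun y x => F x y) = (mat ℝ F).transpose := by
    ext i j
    simp [mat_apply]
  rw [this, Matrix.rank_transpose]

/-- primes dividing the order of a group of automorphisms -/
theorem group_prime (F : X → Y → Bool) (hF : Function.Injective F)
    (hF' : Function.Injective fun y x => F x y)
    (G : Subgroup (Equiv.Perm X × Equiv.Perm Y)) (hG : ∀ g ∈ G, ∀ x y, F (g.1 x) (g.2 y) = F x y)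
    (p : ℕ) (hp : p.Prime) (hd : p ∣ Nat.card G) :
    p ≤ (mat ℝ F).rank + 1 := by
  classical
  haveI := Fact.mk hp
  obtain ⟨⟨g, hg⟩, hord⟩ := exists_prime_orderOf_dvd_card' (G := G) p hd
  have hord' : orderOf g = p := by
    rw [← hord, ← Subgroup.orderOf_coe]
  have hpow : g ^ p = 1 := by
    rw [← hord']
    exact pow_orderOf_eq_one g
  have h1 : g.1 ^ p = 1 := by
    rw [← Prod.pow_fst, hpow]
    rfl
  have h2 : g.2 ^ p = 1 := by
    rw [← Prod.pow_snd, hpow]
    rfl
  by_cases hg1 : g.1 = 1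
  · have hg2 : g.2 ≠ 1 := by
      intro hg2
      have : g = 1 := Prod.ext hg1 hg2
      rw [this, orderOf_one] at hord'
      exact hp.one_lt.ne hord'
    rw [← rank_transpose F]
    exact prime_le (fun y x => F x y) hF' p hp g.2 g.1 (fun y x => hG g hg x y) h2 hg2
  · exact prime_le F hF p hp g.1 g.2 (hG g hg) h1 hg1

/-- the action on the cells -/
def cellAct (G : Subgroup (Equiv.Perm X × Equiv.Perm Y)) : MulAction G (X × Y) where
  smul g u := (g.1.1 u.1, g.1.2 u.2)
  one_smul _ := rfl
  mul_smul _ _ _ := rfl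

theorem cell_prime (F : X → Y → Bool) (hF : Function.Injective F)
    (hF' : Function.Injective fun y x => F x y)
    (G : Subgroup (Equiv.Perm X × Equiv.Perm Y)) (hG : ∀ g ∈ G, ∀ x y, F (g.1 x) (g.2 y) = F x y)
    (u : X × Y) (p : ℕ) (hp : p.Prime) (hd : p ∣ (cellOrbit G u).ncard) :
    p ≤ (mat ℝ F).rank + 1 := by
  classical
  letI := cellAct G
  have horb : cellOrbit G u = MulAction.orbit G u := by
    ext x
    constructor
    · rintro ⟨g, hg, rfl⟩
      exact ⟨⟨g, hg⟩, rfl⟩
    · rintro ⟨⟨g, hg⟩, rfl⟩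
      exact ⟨g, hg, rfl⟩
  rw [horb, Set.ncard_eq_toFinset_card', ← Nat.card_eq_card_toFinset] at hd
  exact group_prime F hF hF' G hG p hp (dvd_of_orbit (Γ := G) u p hd)

/-- the trivial protocol -/
theorem protocol_of_card (F : X → Y → Bool) (m : ℕ) (hm : Fintype.card X ≤ 2 ^ m) :
    ∃ (owner : List Bool → Bool) (a : List Bool → X → Bool) (b : List Bool → Y → Bool)
      (out : List Bool → Bool), ∀ x y,
      out (Nat.iterate (fun t : List Bool => t ++ [if owner t then a t x else b t y])
        (m + 1) []) = F x y := by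
  classical
  let e := Fintype.equivFin X
  let bits : X → ℕ → Bool := fun x i => Nat.testBit (e x : ℕ) i
  let word : X → ℕ → List Bool := fun x k => (List.range k).map (bits x)
  have hinj : ∀ x x', word x m = word x' m → x = x' := by
    intro x x' h
    have h1 : ∀ i, i < m → bits x i = bits x' i := by
      intro i hi
      have h2 := List.map_inj_left.1 h i (List.mem_range.2 hi)
      exact h2
    have h2 : (e x : ℕ) = e x' := by
      apply Nat.eq_of_testBit_eq
      intro i
      by_cases hi : i < m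
      · exact h1 i hi
      · have hpow : 2 ^ m ≤ 2 ^ i := Nat.pow_le_pow_right (by norm_num) (not_lt.1 hi)
        rw [Nat.testBit_lt_two_pow (lt_of_lt_of_le (lt_of_lt_of_le (e x).2 hm) hpow),
          Nat.testBit_lt_two_pow (lt_of_lt_of_le (lt_of_lt_of_le (e x').2 hm) hpow)]
    exact e.injective (Fin.ext h2)
  refine ⟨fun t => decide (t.length < m), fun t x => bits x t.length,
    fun t y => if h : ∃ x, word x m = t then F h.choose y else false,
    fun t => t.getLastD false, fun x y => ?_⟩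
  have hstep : ∀ k, k ≤ m →
      Nat.iterate (fun t : List Bool => t ++ [if decide (t.length < m) then bits x t.length else
        (if h : ∃ x, word x m = t then F h.choose y else false)]) k [] = word x k := by
    intro k
    induction k with
    | zero => intro _; rfl
    | succ k ih =>
      intro hk
      rw [Function.iterate_succ_apply', ih (by omega)]
      have hlen : (word x k).length = k := by simp [word]
      simp only [hlen]
      rw [if_pos (decide_eq_true (by omega : k < m))]
      change word x k ++ [bits x k] = word x (k + 1)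
      simp only [word, List.range_succ, List.map_append, List.map_cons, List.map_nil]
  rw [Function.iterate_succ_apply', hstep m le_rfl]
  have hlen : (word x m).length = m := by simp [word]
  simp only [hlen]
  have hex : ∃ x', word x' m = word x m := ⟨x, rfl⟩
  rw [if_neg (by simp), dif_pos hex, hinj _ _ hex.choose_spec]
  simp

theorem clog_bound (n : ℕ) (hn : 1 ≤ n) : ((Nat.clog 2 n : ℕ) : ℝ) ≤ log n / log 2 + 1 := by
  have hl2 : 0 < log 2 := log_pos (by norm_num)
  rcases Nat.eq_zero_or_pos (Nat.clog 2 n) with h0 | h0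
  · rw [h0, Nat.cast_zero]
    have : 0 ≤ log (n : ℝ) := log_natCast_nonneg n
    positivity
  · have hlt : 2 ^ (Nat.clog 2 n - 1) < n := by
      by_contra hcon
      rw [not_lt] at hcon
      have := (Nat.clog_le_iff_le_pow (by norm_num : 1 < 2)).2 hcon
      omega
    have h1 : ((2 : ℝ) ^ (Nat.clog 2 n - 1)) ≤ n := by exact_mod_cast hlt.le
    have h2 := log_le_log (by positivity) h1
    rw [log_pow] at h2
    have h3 : ((Nat.clog 2 n - 1 : ℕ) : ℝ) ≤ log n / log 2 := by
      rw [le_div_iff₀ hl2]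
      exact h2
    have h4 : ((Nat.clog 2 n : ℕ) : ℝ) = ((Nat.clog 2 n - 1 : ℕ) : ℝ) + 1 := by
      have : Nat.clog 2 n = (Nat.clog 2 n - 1) + 1 := by omega
      exact_mod_cast this
    linarith

/-- the protocol obtained from an upper bound of the number of rows -/
theorem protocol_of_log (F : X → Y → Bool) (hX : 1 ≤ Fintype.card X) (B : ℝ)
    (hB : log (Fintype.card X) ≤ B) :
    ∃ (c : ℕ) (owner : List Bool → Bool) (a : List Bool → X → Bool) (b : List Bool → Y → Bool)
      (out : List Bool → Bool), (∀ x y,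
      out (Nat.iterate (fun t : List Bool => t ++ [if owner t then a t x else b t y])
        c []) = F x y) ∧ (c : ℝ) ≤ B / log 2 + 2 := by
  have hl2 : 0 < log 2 := log_pos (by norm_num)
  obtain ⟨owner, a, b, out, h⟩ := protocol_of_card F (Nat.clog 2 (Fintype.card X))
    (Nat.le_pow_clog (by norm_num) _)
  refine ⟨Nat.clog 2 (Fintype.card X) + 1, owner, a, b, out, h, ?_⟩
  have h1 := clog_bound _ hX
  have h2 : log (Fintype.card X : ℝ) / log 2 ≤ B / log 2 := div_le_div_of_nonneg_right hB hl2.le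
  push_cast
  linarith

/-- counting the rows by orbits -/
theorem log_card_rows {E : Set ℕ} {b : ℝ → ℝ} (hE : NumBound E b) (F : X → Y → Bool)
    (hF : Function.Injective F) (hr : 1 < (mat ℝ F).rank)
    (G : Subgroup (Equiv.Perm X × Equiv.Perm Y)) (hG : ∀ g ∈ G, ∀ x y, F (g.1 x) (g.2 y) = F x y)
    (T : Finset X) (hT : ∀ x, ∃ u ∈ T, x ∈ rowOrbit G u)
    (hTE : ∀ u ∈ T, (rowOrbit G u).ncard ∉ E) (hX : 1 ≤ Fintype.card X) :
    1 ≤ T.card ∧ log (Fintype.card X) ≤ log T.card + b (mat ℝ F).rank := by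
  classical
  have hpos : 0 < Fintype.card X := hX
  obtain ⟨x0⟩ := Fintype.card_pos_iff.1 hpos
  have hTc : 1 ≤ T.card := by
    obtain ⟨u, hu, _⟩ := hT x0
    exact Finset.card_pos.2 ⟨u, hu⟩
  refine ⟨hTc, ?_⟩
  have hTc' : (0 : ℝ) < T.card := by exact_mod_cast hTc
  have h1 : (Finset.univ : Finset X) ⊆ T.biUnion fun u => (rowOrbit G u).toFinset := by
    intro x _
    obtain ⟨u, hu, hx⟩ := hT x
    rw [Finset.mem_biUnion]
    exact ⟨u, hu, by rw [Set.mem_toFinset]; exact hx⟩
  have h2 : Fintype.card X ≤ ∑ u ∈ T, (rowOrbit G u).toFinset.card := by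
    rw [← Finset.card_univ]
    exact (Finset.card_le_card h1).trans Finset.card_biUnion_le
  have h3 : ∀ u ∈ T, ((rowOrbit G u).toFinset.card : ℝ) ≤ exp (b (mat ℝ F).rank) := by
    intro u hu
    have h4 : (rowOrbit G u).toFinset.card = (rowOrbit G u).ncard := by
      rw [Set.ncard_eq_toFinset_card']
    rw [h4]
    have h5 := hE _ hr _ (fun p hp hd => row_prime F hF G hG u p hp hd) (hTE u hu)
    have h6 : 0 < (rowOrbit G u).ncard := by
      rw [Set.ncard_pos (Set.toFinite _)]
      exact ⟨u, 1, G.one_mem, rfl⟩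
    calc ((rowOrbit G u).ncard : ℝ) = exp (log (rowOrbit G u).ncard) := by
          rw [exp_log (by exact_mod_cast h6)]
      _ ≤ _ := exp_le_exp.2 h5
  have h4 : (Fintype.card X : ℝ) ≤ T.card * exp (b (mat ℝ F).rank) := by
    calc (Fintype.card X : ℝ) ≤ ∑ u ∈ T, ((rowOrbit G u).toFinset.card : ℝ) := by
          exact_mod_cast h2
      _ ≤ ∑ _u ∈ T, exp (b (mat ℝ F).rank) := Finset.sum_le_sum h3
      _ = _ := by rw [Finset.sum_const, nsmul_eq_mul]
  have h5 := log_le_log (by exact_mod_cast hX) h4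
  rwa [log_mul hTc'.ne' (exp_pos _).ne', log_exp] at h5

/-- counting the rows by orbits of ones -/
theorem log_card_cells {E : Set ℕ} {b : ℝ → ℝ} (hE : NumBound E b) (F : X → Y → Bool)
    (hF : Function.Injective F) (hF' : Function.Injective fun y x => F x y)
    (hr : 1 < (mat ℝ F).rank)
    (G : Subgroup (Equiv.Perm X × Equiv.Perm Y)) (hG : ∀ g ∈ G, ∀ x y, F (g.1 x) (g.2 y) = F x y)
    (T : Finset (X × Y)) (hT : ∀ x y, F x y = true → ∃ u ∈ T, (x, y) ∈ cellOrbit G u)
    (hTE : ∀ u ∈ T, (cellOrbit G u).ncard ∉ E) (hX : 1 ≤ Fintype.card X)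
    (hone : ∃ x y, F x y = true) :
    1 ≤ T.card ∧ log (Fintype.card X) ≤ log T.card + b (mat ℝ F).rank + log 2 := by
  classical
  obtain ⟨x0, y0, h0⟩ := hone
  have hTc : 1 ≤ T.card := by
    obtain ⟨u, hu, _⟩ := hT x0 y0 h0
    exact Finset.card_pos.2 ⟨u, hu⟩
  refine ⟨hTc, ?_⟩
  have hTc' : (0 : ℝ) < T.card := by exact_mod_cast hTc
  let Z : Finset (X × Y) := T.biUnion fun u => (cellOrbit G u).toFinset
  have hZ : ∀ x y, F x y = true → (x, y) ∈ Z := by
    intro x y hxy
    obtain ⟨u, hu, hx⟩ := hT x y hxy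
    rw [Finset.mem_biUnion]
    exact ⟨u, hu, by rw [Set.mem_toFinset]; exact hx⟩
  have h1 : Fintype.card X ≤ Z.card + 1 := by
    let z : Finset X := Finset.univ.filter fun x => ∀ y, F x y = false
    let w : Finset X := Finset.univ.filter fun x => ¬ ∀ y, F x y = false
    have hz : z.card ≤ 1 := by
      rw [Finset.card_le_one]
      intro x hx x' hx'
      rw [Finset.mem_filter] at hx hx'
      apply hF
      funext y
      rw [hx.2 y, hx'.2 y]
    have hw : w.card ≤ Z.card := by
      have hsub : w ⊆ Z.image Prod.fst := by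
        intro x hx
        rw [Finset.mem_filter] at hx
        have h2 := hx.2
        push Not at h2
        obtain ⟨y, hy⟩ := h2
        rw [Finset.mem_image]
        exact ⟨(x, y), hZ x y (by simpa using hy), rfl⟩
      exact (Finset.card_le_card hsub).trans Finset.card_image_le
    have hsum : z.card + w.card = Fintype.card X := by
      rw [← Finset.card_univ]
      exact Finset.card_filter_add_card_filter_not _
    omega
  have h2 : Z.card ≤ ∑ u ∈ T, (cellOrbit G u).toFinset.card := Finset.card_biUnion_le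
  have h3 : ∀ u ∈ T, ((cellOrbit G u).toFinset.card : ℝ) ≤ exp (b (mat ℝ F).rank) := by
    intro u hu
    have h4 : (cellOrbit G u).toFinset.card = (cellOrbit G u).ncard := by
      rw [Set.ncard_eq_toFinset_card']
    rw [h4]
    have h5 := hE _ hr _ (fun p hp hd => cell_prime F hF hF' G hG u p hp hd) (hTE u hu)
    have h6 : 0 < (cellOrbit G u).ncard := by
      rw [Set.ncard_pos (Set.toFinite _)]
      exact ⟨u, 1, G.one_mem, rfl⟩
    calc ((cellOrbit G u).ncard : ℝ) = exp (log (cellOrbit G u).ncard) := by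
          rw [exp_log (by exact_mod_cast h6)]
      _ ≤ _ := exp_le_exp.2 h5
  have h4 : (Z.card : ℝ) ≤ T.card * exp (b (mat ℝ F).rank) := by
    calc (Z.card : ℝ) ≤ ∑ u ∈ T, ((cellOrbit G u).toFinset.card : ℝ) := by
          exact_mod_cast h2
      _ ≤ ∑ _u ∈ T, exp (b (mat ℝ F).rank) := Finset.sum_le_sum h3
      _ = _ := by rw [Finset.sum_const, nsmul_eq_mul]
  have hZ1 : (1 : ℝ) ≤ Z.card := by
    have : 0 < Z.card := Finset.card_pos.2 ⟨(x0, y0), hZ x0 y0 h0⟩
    exact_mod_cast this
  have h5 : (Fintype.card X : ℝ) ≤ T.card * exp (b (mat ℝ F).rank) * 2 := by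
    have h6 : (Fintype.card X : ℝ) ≤ Z.card + 1 := by exact_mod_cast h1
    linarith
  have h6 := log_le_log (by exact_mod_cast hX) h5
  rwa [log_mul (by positivity) (by norm_num), log_mul hTc'.ne' (exp_pos _).ne', log_exp] at h6

end Pool.Agent.Q330.LRM
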